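import Mathlib

/-!
# MP_c3df8c_co : definitions

Small perturbations of simple polytopes and refinements of boundary complexes.
-/

open Set

namespace Pool.Agent.helper78.CX

/-! ## Statement level definitions -/

section Statement

variable {E : Type*} [NormedAddCommGroup E] [InnerProductSpace ℝ E]

/-- A convex polytope: the convex hull of a finite set. -/
def IsPolytope (P : Set E) : Prop := ∃ S : Set E, S.Finite ∧ P = convexHull ℝ S

/-- The boundary complex of `P`: the set of all proper faces of `P`, the empty face included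
(a face is an exposed face: `∅`, or the set of all maximisers over `P` of a linear functional). -/
def bdComplex (P : Set E) : Set (Set E) := {F | IsExposed ℝ P F ∧ F ≠ P}

/-- The complex `C` is a refinement of the complex `K` (both given as sets of cells, with
underlying sets `⋃₀ C`, `⋃₀ K`): there is a homeomorphism of the underlying sets such that the
preimage of every cell of `K` is a union of cells of `C`. -/
def IsRefinement (C K : Set (Set E)) : Prop :=
  ∃ φ : ↥(⋃₀ C) ≃ₜ ↥(⋃₀ K), ∀ F ∈ K, ∃ S, S ⊆ C ∧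
    ∀ x : ↥(⋃₀ C), ((φ x : ↥(⋃₀ K)) : E) ∈ F ↔ (x : E) ∈ ⋃₀ S

/-- A facet: a maximal proper face. -/
def IsFacet (P F : Set E) : Prop := F ∈ bdComplex P ∧ ∀ G ∈ bdComplex P, F ⊆ G → G = F

/-- A simple `d`-polytope in `ℝ^d`: a polytope with nonempty interior such that every vertex
(extreme point) lies in exactly `d` facets. -/
def IsSimplePolytope (d : ℕ) (P : Set (EuclideanSpace ℝ (Fin d))) : Prop :=
  IsPolytope P ∧ (interior P).Nonempty ∧
    ∀ v ∈ P.extremePoints ℝ, {F | IsFacet P F ∧ v ∈ F}.ncard = d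

/-- The unit cube `[0,1]^X`. -/
def cube (X : Type*) [Fintype X] : Set (EuclideanSpace ℝ X) := {x | ∀ i, 0 ≤ x i ∧ x i ≤ 1}

end Statement

/-! ## H-polytopes -/

section HPoly

variable {E : Type*} [NormedAddCommGroup E] [InnerProductSpace ℝ E] {T : Type*}

/-- intersection of the half-spaces `L t x ≤ b t` -/
def HP (L : T → StrongDual ℝ E) (b : T → ℝ) : Set E := {x | ∀ t, L t x ≤ b t}

/-- the face where the constraint `t` is tight -/
def HG (L : T → StrongDual ℝ E) (b : T → ℝ) (t : T) : Set E := {x | x ∈ HP L b ∧ L t x = b t}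

/-- the set of points where exactly the constraint `t` is tight -/
def HW (L : T → StrongDual ℝ E) (b : T → ℝ) (t : T) : Set E :=
  {x | L t x = b t ∧ ∀ t', t' ≠ t → L t' x < b t'}

end HPoly

/-! ## Faces of the cube -/

/-- `0` or `1` -/
def bit (b : Bool) : ℝ := if b then 1 else 0

/-- the facet `x i = b` of the cube -/
def CF {X : Type*} [Fintype X] (i : X) (b : Bool) : Set (EuclideanSpace ℝ X) :=
  {x | x ∈ cube X ∧ x i = bit b}

/-- its relative interior -/
def CI {X : Type*} [Fintype X] (i : X) (b : Bool) : Set (EuclideanSpace ℝ X) :=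
  {x | x i = bit b ∧ ∀ j, j ≠ i → 0 < x j ∧ x j < 1}

/-! ## Slices and the abstract polytope -/

/-- the points `y` of `ℝ^3` which satisfy all the constraints `b k' ≤ N k' · y`, the constraint `k`
with equality -/
def Face {κ : Type*} (N : κ → Fin 3 → ℝ) (b : κ → ℝ) (k : κ) : Set (Fin 3 → ℝ) :=
  {y | (∀ k', b k' ≤ ∑ i, N k' i * y i) ∧ ∑ i, N k i * y i = b k}

/-- the colouring `col` of the constraints is compatible with the slice given by `b`:
every colour occurs on a nonempty face, and every point of the slice on the face `k` lies on a face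
of the same colour with at least two points. -/
def ColProp {κ C : Type*} (N : κ → Fin 3 → ℝ) (b : κ → ℝ) (col : κ → C) : Prop :=
  (∀ A, ∃ k, col k = A ∧ (Face N b k).Nonempty) ∧
    ∀ k, ∀ y ∈ Face N b k, ∃ k', col k' = col k ∧ y ∈ Face N b k' ∧ (Face N b k').Nontrivial

/-- The polytope `{(s,y) : s ∈ [0,1]^J, c k + w k · s ≤ N k · y for all k}` in `ℝ^X`,
`X = J ⊕ Fin 3`. -/
def Poly {X J κ : Type*} [Fintype X] [Fintype J] (e : J ⊕ Fin 3 ≃ X) (N : κ → Fin 3 → ℝ)
    (c : κ → ℝ) (w : κ → J → ℝ) : Set (EuclideanSpace ℝ X) :=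
  {x | (∀ j, 0 ≤ x (e (.inl j)) ∧ x (e (.inl j)) ≤ 1) ∧
    ∀ k, c k + ∑ j, w k j * x (e (.inl j)) ≤ ∑ i, N k i * x (e (.inr i))}

/-- membership in `Poly` in coordinates -/
def InPoly {J κ : Type*} [Fintype J] (N : κ → Fin 3 → ℝ) (c : κ → ℝ) (w : κ → J → ℝ)
    (s : J → ℝ) (y : Fin 3 → ℝ) : Prop :=
  (∀ j, 0 ≤ s j ∧ s j ≤ 1) ∧ ∀ k, c k + ∑ j, w k j * s j ≤ ∑ i, N k i * y i

/-- The hypotheses of part A. -/
structure Good {J κ : Type*} [Fintype J] (N : κ → Fin 3 → ℝ) (c : κ → ℝ) (w : κ → J → ℝ) :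
    Prop where
  int : ∃ (s : J → ℝ) (y : Fin 3 → ℝ), (∀ j, 0 < s j ∧ s j < 1) ∧
    ∀ k, c k + ∑ j, w k j * s j < ∑ i, N k i * y i
  Wk : ∀ k, ∃ (s : J → ℝ) (y : Fin 3 → ℝ), (∀ j, 0 < s j ∧ s j < 1) ∧
    c k + ∑ j, w k j * s j = ∑ i, N k i * y i ∧
    ∀ k', k' ≠ k → c k' + ∑ j, w k' j * s j < ∑ i, N k' i * y i
  Wj : ∀ j (b : Bool), ∃ (s : J → ℝ) (y : Fin 3 → ℝ), s j = bit b ∧
    (∀ j', j' ≠ j → 0 < s j' ∧ s j' < 1) ∧ ∀ k, c k + ∑ j, w k j * s j < ∑ i, N k i * y i
  Ik : ∀ k j (b : Bool), ∃ (s : J → ℝ) (y : Fin 3 → ℝ), InPoly N c w s y ∧ s j = bit b ∧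
    c k + ∑ j, w k j * s j = ∑ i, N k i * y i
  Ij : ∀ j j', j ≠ j' → ∀ b b' : Bool, ∃ (s : J → ℝ) (y : Fin 3 → ℝ), InPoly N c w s y ∧
    s j = bit b ∧ s j' = bit b'

/-! ## `Poly` as an H-polytope -/

section PolyH
variable {X J κ : Type*} [Fintype X] [Fintype J]

/-- the functionals of `Poly` -/
noncomputable def PL (e : J ⊕ Fin 3 ≃ X) (N : κ → Fin 3 → ℝ) (w : κ → J → ℝ) :
    (J × Bool) ⊕ κ → StrongDual ℝ (EuclideanSpace ℝ X)
  | .inl (j, false) => -EuclideanSpace.proj (e (.inl j))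
  | .inl (j, true) => EuclideanSpace.proj (e (.inl j))
  | .inr k => (∑ j, w k j • EuclideanSpace.proj (e (.inl j)))
      - ∑ i, N k i • EuclideanSpace.proj (e (.inr i))

/-- the right-hand sides -/
def Pb (c : κ → ℝ) : (J × Bool) ⊕ κ → ℝ
  | .inl (_, false) => 0
  | .inl (_, true) => 1
  | .inr k => - c k

/-- the point with coordinates `(s, y)` -/
noncomputable def pt (e : J ⊕ Fin 3 ≃ X) (s : J → ℝ) (y : Fin 3 → ℝ) : EuclideanSpace ℝ X :=
  WithLp.toLp 2 (fun x => Sum.elim s y (e.symm x))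

end PolyH

/-! ## The concrete normals -/

/-- the box `[-n,n]²` of lattice points -/
noncomputable def Box (n : ℕ) : Finset (ℤ × ℤ) := Finset.Icc (-(n : ℤ)) n ×ˢ Finset.Icc (-(n : ℤ)) n

/-- index set of the constraints: the 6 facets of the 3-cube and the lattice points of the box -/
abbrev Kap (n : ℕ) := (Fin 3 × Bool) ⊕ {a : ℤ × ℤ // a ∈ Box n}

/-- the ratio -/
noncomputable def LL : ℝ := 3 / 2

/-- the normal of the lattice point `a` -/
noncomputable def MM (a : ℤ × ℤ) : Fin 3 → ℝ := ![LL ^ a.1, LL ^ a.2, 1]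

/-- the normals: `e_i`, `-e_i` (constraints `0 ≤ y i`, `-1 ≤ - y i`), `MM a` -/
noncomputable def NN (n : ℕ) : Kap n → Fin 3 → ℝ
  | .inl (i, false) => Pi.single i 1
  | .inl (i, true) => Pi.single i (-1)
  | .inr a => MM a.1

/-- the constants -/
def cc (n : ℕ) : Kap n → ℝ
  | .inl (_, true) => -1
  | _ => 0

/-! ### the special lattice points and regions -/

/-- the four special points: `0,1` near the corner `A_2` (axis 2), `2` near `A_0`, `3` near `A_1` -/
def sp (n : ℕ) : Fin 4 → ℤ × ℤ :=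
  ![(-(n : ℤ) + 4, -(n : ℤ)), (-(n : ℤ), -(n : ℤ) + 4), ((n : ℤ) - 4, -(n : ℤ)),
    (-(n : ℤ), (n : ℤ) - 4)]

theorem sp_mem (n : ℕ) (hn : 10 ≤ n) (q : Fin 4) : sp n q ∈ Box n := by
  simp only [Box, Finset.mem_product, Finset.mem_Icc]
  fin_cases q <;> simp [sp] <;> omega

/-- the corner axis of the special point -/
def spax : Fin 4 → Fin 3 := ![2, 2, 0, 1]

/-- the axis of the strip -/
def stax : Fin 4 → Fin 3 := ![0, 1, 2, 2]

/-- membership in the strip `q` -/
def InStrip (n : ℕ) : Fin 4 → ℤ × ℤ → Prop :=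
  ![fun a => a.1 ≤ -(n : ℤ) + 3, fun a => a.2 ≤ -(n : ℤ) + 3,
    fun a => (n : ℤ) - 3 ≤ a.1 ∧ -(n : ℤ) + 1 ≤ a.2,
    fun a => (n : ℤ) - 3 ≤ a.2 ∧ -(n : ℤ) + 1 ≤ a.1]

/-- the three lattice triangles around the unit square -/
def tq : Fin 3 → Fin 3 → ℤ × ℤ :=
  ![![(-3, -3), (1, -2), (2, 4)], ![(-3, -3), (4, 2), (2, 4)], ![(1, -2), (4, 2), (-2, 1)]]

/-- the corners of the unit square -/
def cw : Fin 4 → ℤ × ℤ := ![(0, 0), (1, 0), (0, 1), (1, 1)]

/-- the offsets of the gadget `j` (`j = 0,1,2`: triangle and unit square; `j = 3`: one point) -/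
def XX : Fin 4 → Finset (ℤ × ℤ) :=
  ![{(-3, -3), (1, -2), (2, 4), (0, 0), (1, 0), (0, 1), (1, 1)},
    {(-3, -3), (4, 2), (2, 4), (0, 0), (1, 0), (0, 1), (1, 1)},
    {(1, -2), (4, 2), (-2, 1), (0, 0), (1, 0), (0, 1), (1, 1)},
    {(0, 0)}]

/-- base point of the gadget number `t` of the residue class `r` modulo 30 -/
def bp (r : Fin 30 × Fin 30) (t : ℤ × ℤ) : ℤ × ℤ :=
  (((r.1 : ℕ) : ℤ) + 30 * t.1, ((r.2 : ℕ) : ℤ) + 30 * t.2)

/-- the vertex of the gadget number `t` (before scaling) -/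
noncomputable def zt (r : Fin 30 × Fin 30) (t : ℤ × ℤ) : Fin 3 → ℝ :=
  ![LL ^ (10 * (t.1 + t.2) - (bp r t).1), LL ^ (10 * (t.1 + t.2) - (bp r t).2),
    LL ^ (10 * (t.1 + t.2))]

/-- the gadget `t` fits in the box -/
def Fits (n : ℕ) (j : Fin 4) (r : Fin 30 × Fin 30) (t : ℤ × ℤ) : Prop :=
  ∀ x ∈ XX j, bp r t + x ∈ Box n

open Classical in
/-- offset of the lattice point `a` in the gadget class `(j, r)` (before scaling) -/
noncomputable def off (n : ℕ) (j : Fin 4) (r : Fin 30 × Fin 30) (a : ℤ × ℤ) : ℝ :=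
  if h : ∃ t : ℤ × ℤ, Fits n j r t ∧ ∃ x ∈ XX j, a = bp r t + x then
    ∑ i, MM a i * zt r h.choose i else 0

/-- the classes of slices: corners, strips, gadgets -/
abbrev Cls := Fin 4 ⊕ (Fin 4 ⊕ (Fin 4 × Fin 30 × Fin 30))

/-- the tilt -/
noncomputable def eta (n : ℕ) : ℝ := 2 * LL ^ (4 - (n : ℤ))

open Classical in
/-- the offset functions of the slices -/
noncomputable def bet (n : ℕ) (θ : ℝ) : Cls → Kap n → ℝ
  | .inl q, .inl (i, false) => if i = spax q then -eta n else 0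
  | .inl _, .inl (_, true) => 0
  | .inl q, .inr a => if a.1 = sp n q then 0 else -(eta n * MM a.1 (spax q))
  | .inr _, .inl _ => 0
  | .inr (.inl q), .inr a =>
      if InStrip n q a.1 ∨ a.1 = sp n q then θ * MM a.1 (stax q) else 0
  | .inr (.inr (j, r)), .inr a => θ * off n j r a.1

/-- the index set of the cube factor: two coordinates for each class, and `e` dummies -/
abbrev JJ (e : ℕ) := (Cls × Bool) ⊕ Fin e

/-- the coefficients of the heights -/
noncomputable def ww (n e : ℕ) (θ : ℝ) : Kap n → JJ e → ℝ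
  | k, .inl (l, true) => bet n θ l k
  | k, .inl (l, false) => -bet n θ l k
  | _, .inr _ => 0

/-- weight of a constraint -/
noncomputable def wt (n : ℕ) : Kap n → ℝ
  | .inl _ => 1
  | .inr a => ∑ i, MM a.1 i

/-- smallness of the parameters -/
def Small (n : ℕ) (θ ε : ℝ) : Prop :=
  10 ≤ n ∧ 0 < θ ∧ θ < 1 ∧ (∀ k : Kap n, ∑ l, |bet n θ l k| ≤ ε * wt n k) ∧
    ∀ j r t, Fits n j r t → ∀ i, θ * zt r t i < 1

end Pool.Agent.helper78.CX
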