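import Mathlib
import Pool.Agent.helper78.CX.Defs
import Pool.Agent.helper22.CX.HA
import Pool.Agent.helper63.CX.CU
import Pool.Agent.helper26.CX.PH
import Pool.Agent.helper31.CX.PA

open Set

namespace Pool.Agent.helper78.CX

section PartA
variable {X J κ : Type*} [Fintype X] [Fintype J]

/-! ### module PB -/

theorem PB_bit_ne (b : Bool) : bit b ≠ bit (!b) := by
  cases b <;> simp [bit]

theorem PB_bit_mem (b : Bool) : 0 ≤ bit b ∧ bit b ≤ 1 := by
  cases b <;> simp [bit]

theorem PB_hg_closed {E : Type*} [NormedAddCommGroup E] [InnerProductSpace ℝ E] {T : Type*}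
    (L : T → StrongDual ℝ E) (b : T → ℝ) (t : T) : IsClosed (HG L b t) := by
  have : HG L b t = (⋂ t', {x | L t' x ≤ b t'}) ∩ {x | L t x = b t} := by
    ext x; simp [HG, HP]
  rw [this]
  exact (isClosed_iInter fun t' => isClosed_le (L t').continuous continuous_const).inter
    (isClosed_eq (L t).continuous continuous_const)

theorem partA [Nonempty J] [Finite κ] (e : J ⊕ Fin 3 ≃ X) (N : κ → Fin 3 → ℝ) (c : κ → ℝ)
    (w : κ → J → ℝ) (hG : Good N c w)
    (hR : IsRefinement (bdComplex (Poly e N c w)) (bdComplex (cube X))) :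
    ∃ col : κ → Fin 3 × Bool, ∀ s : J → Bool,
      ColProp N (fun k => c k + ∑ j, w k j * bit (s j)) col := by
  classical
  rw [poly_eq] at hR
  obtain ⟨x0, h0⟩ := good_int e N c w hG
  have hW := good_W e N c w hG
  set L := PL e N w with hL
  set b := (Pb c : (J × Bool) ⊕ κ → ℝ) with hb
  obtain ⟨φ, hφ⟩ := hR
  obtain ⟨cl, hcl⟩ := colours L b x0 h0 hW φ hφ
  -- points of faces are in the boundary
  have hbd : ∀ t x, x ∈ HG L b t → x ∈ ⋃₀ bdComplex (HP L b) := fun t x hx =>
    ⟨_, hg_mem_bdComplex L b x0 h0 t, hx⟩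
  have hcube : ∀ (i : X) (β : Bool) (x : EuclideanSpace ℝ X), x ∈ CF i β →
      x ∈ ⋃₀ bdComplex (cube X) := fun i β x hx => ⟨_, cf_mem i β, hx⟩
  have hdisj : ∀ (i : X) (β : Bool) (x : EuclideanSpace ℝ X), x ∈ CF i β → x ∉ CF i (!β) := by
    intro i β x hx hx'
    exact PB_bit_ne β (hx.2.symm.trans hx'.2)
  -- every facet of the cube is hit
  have hne : ∀ (i : X) (β : Bool), ∃ x : ↥(⋃₀ bdComplex (HP L b)),
      ((φ x : ↥(⋃₀ bdComplex (cube X))) : EuclideanSpace ℝ X) ∈ CF i β := by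
    intro i β
    let p : EuclideanSpace ℝ X := WithLp.toLp 2 (fun _ => bit β)
    have hp : p ∈ CF i β := ⟨fun j => PB_bit_mem β, rfl⟩
    refine ⟨φ.symm ⟨p, hcube i β p hp⟩, ?_⟩
    simpa using hp
  have huniq0 : ∀ j bb i β, cl (.inl (j, bb)) = (i, β) → ∀ t, cl t = (i, !β) →
      t = .inl (j, !bb) := by
    intro j bb i β h1 t ht
    by_contra hne'
    obtain ⟨x, hx1, hx2⟩ := good_meet e N c w hG t j bb hne'
    have h2 := (hcl i (!β) ⟨x, hbd _ _ hx1⟩).2 ⟨t, ht, hx1⟩
    have h3 := (hcl i β ⟨x, hbd _ _ hx1⟩).2 ⟨_, h1, hx2⟩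
    exact hdisj _ _ _ h3 h2
  have hopp : ∀ j bb i β, cl (.inl (j, bb)) = (i, β) → cl (.inl (j, !bb)) = (i, !β) := by
    intro j bb i β h1
    obtain ⟨x, hx⟩ := hne i (!β)
    obtain ⟨t, ht, -⟩ := (hcl i (!β) x).1 hx
    rw [← huniq0 j bb i β h1 t ht]; exact ht
  have huniq : ∀ j bb t, cl t = cl (.inl (j, bb)) → t = .inl (j, bb) := by
    intro j bb t ht
    obtain ⟨i, β, h1⟩ : ∃ i β, cl (.inl (j, !bb)) = (i, β) := ⟨_, _, rfl⟩
    have h2 := hopp j (!bb) i β h1
    have h3 := huniq0 j (!bb) i β h1 t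
    simp only [Bool.not_not] at h2 h3
    exact h3 (ht.trans h2)
  let π : J → X := fun j => (cl (.inl (j, true))).1
  have hπ : ∀ j bb, (cl (.inl (j, bb))).1 = π j := by
    intro j bb
    cases bb
    · have := hopp j true _ _ (rfl : cl (.inl (j, true)) = _)
      simp only [Bool.not_true] at this
      rw [this]
    · rfl
  -- a constraint whose colour has first coordinate `π j` is `(j, _)`
  have hπ' : ∀ j t, (cl t).1 = π j → ∃ bb, t = .inl (j, bb) := by
    intro j t ht
    by_cases h : (cl t).2 = (cl (.inl (j, true))).2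
    · exact ⟨true, huniq j true t (Prod.ext ht h)⟩
    · refine ⟨false, huniq j false t (Prod.ext (ht.trans (hπ j false).symm) ?_)⟩
      have h2 := hopp j true _ _ (rfl : cl (.inl (j, true)) = ((cl (.inl (j, true))).1, (cl (.inl (j, true))).2))
      simp only [Bool.not_true] at h2
      rw [h2]
      revert h
      cases (cl t).2 <;> cases (cl (.inl (j, true))).2 <;> simp
  have hπinj : Function.Injective π := by
    intro j j' hjj
    obtain ⟨bb, hbb⟩ := hπ' j (.inl (j', true)) hjj.symm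
    simp only [Sum.inl.injEq, Prod.mk.injEq] at hbb
    exact hbb.1.symm
  have hπκ : ∀ k : κ, (cl (.inr k)).1 ∉ Set.range π := by
    rintro k ⟨j, hj⟩
    obtain ⟨bb, hbb⟩ := hπ' j (.inr k) hj.symm
    simp at hbb
  -- the three remaining coordinates
  have hcard : Fintype.card {i : X // i ∉ Set.range π} = 3 := by
    have h1 : Fintype.card X = Fintype.card J + 3 := by
      rw [← Fintype.card_congr e]; simp
    have h2 : Fintype.card {i : X // i ∈ Set.range π} = Fintype.card J :=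
      Set.card_range_of_injective hπinj
    have h3 := Fintype.card_subtype_compl (fun i : X => i ∈ Set.range π)
    omega
  let g : {i : X // i ∉ Set.range π} ≃ Fin 3 := Fintype.equivFinOfCardEq hcard
  let col : κ → Fin 3 × Bool := fun k => (g ⟨(cl (.inr k)).1, hπκ k⟩, (cl (.inr k)).2)
  refine ⟨col, fun s => ?_⟩
  -- the face of the cube and its preimage
  let K : Fin 3 × Bool → Set (EuclideanSpace ℝ X) := fun A =>
    {x | (∀ j, x ∈ CF (cl (.inl (j, s j))).1 (cl (.inl (j, s j))).2) ∧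
      x ∈ CF ((g.symm A.1 : {i : X // i ∉ Set.range π}) : X) A.2}
  let S : Fin 3 × Bool → Set ↥(⋃₀ bdComplex (HP L b)) := fun A =>
    {x | ((φ x : ↥(⋃₀ bdComplex (cube X))) : EuclideanSpace ℝ X) ∈ K A}
  have hS : ∀ A x, x ∈ S A ↔ (∀ j, (x : EuclideanSpace ℝ X) ∈ HG L b (.inl (j, s j))) ∧
      ∃ k, col k = A ∧ (x : EuclideanSpace ℝ X) ∈ HG L b (.inr k) := by
    intro A x
    constructor
    · rintro ⟨h1, h2⟩
      refine ⟨fun j => ?_, ?_⟩
      · obtain ⟨t, ht, hxt⟩ := (hcl _ _ x).1 (h1 j)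
        rwa [huniq j (s j) t ht] at hxt
      · obtain ⟨t, ht, hxt⟩ := (hcl _ _ x).1 h2
        rcases t with ⟨j, bb⟩ | k
        · exfalso
          apply (g.symm A.1).2
          exact ⟨j, by rw [← hπ j bb, ht]⟩
        · refine ⟨k, ?_, hxt⟩
          have h3 : (⟨(cl (.inr k)).1, hπκ k⟩ : {i : X // i ∉ Set.range π}) = g.symm A.1 :=
            Subtype.ext (congrArg Prod.fst ht)
          refine Prod.ext ?_ ?_
          · show g ⟨(cl (.inr k)).1, hπκ k⟩ = A.1
            rw [h3]; simp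
          · show (cl (.inr k)).2 = A.2
            rw [ht]
    · rintro ⟨h1, k, hk, h2⟩
      refine ⟨fun j => (hcl _ _ x).2 ⟨_, rfl, h1 j⟩, (hcl _ _ x).2 ⟨.inr k, ?_, h2⟩⟩
      subst hk
      refine Prod.ext ?_ rfl
      simp [col]
  -- two points of `K A`
  have hKpts : ∀ A, ∃ p ∈ K A, ∃ q ∈ K A, p ≠ q := by
    intro A
    let f : ℝ → X → ℝ := fun τ x =>
      if h : ∃ j, π j = x then bit (cl (.inl (h.choose, s h.choose))).2
      else if x = ((g.symm A.1 : {i : X // i ∉ Set.range π}) : X) then bit A.2 else τ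
    have hf1 : ∀ τ j, f τ (π j) = bit (cl (.inl (j, s j))).2 := by
      intro τ j
      have hj : ∃ j', π j' = π j := ⟨j, rfl⟩
      have : hj.choose = j := hπinj hj.choose_spec
      simp only [f]
      rw [dif_pos hj, this]
    have hf2 : ∀ τ, f τ (g.symm A.1 : {i : X // i ∉ Set.range π}) = bit A.2 := by
      intro τ
      have : ¬ ∃ j, π j = ((g.symm A.1 : {i : X // i ∉ Set.range π}) : X) := (g.symm A.1).2
      simp only [f]
      rw [dif_neg this]; simp
    have hf3 : ∀ τ, 0 ≤ τ → τ ≤ 1 → ∀ x, 0 ≤ f τ x ∧ f τ x ≤ 1 := by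
      intro τ h0 h1 x
      simp only [f]
      split_ifs
      · exact PB_bit_mem _
      · exact PB_bit_mem _
      · exact ⟨h0, h1⟩
    have hfK : ∀ τ, 0 ≤ τ → τ ≤ 1 → (WithLp.toLp 2 (f τ) : EuclideanSpace ℝ X) ∈ K A := by
      intro τ h0 h1
      refine ⟨fun j => ⟨fun i => hf3 τ h0 h1 i, ?_⟩, fun i => hf3 τ h0 h1 i, hf2 τ⟩
      show f τ (cl (.inl (j, s j))).1 = _
      rw [hπ j (s j), hf1]
    -- another free coordinate
    obtain ⟨r, hr⟩ : ∃ r : Fin 3, r ≠ A.1 := ⟨A.1 + 1, by omega⟩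
    have hr2 : ∀ τ, f τ (g.symm r : {i : X // i ∉ Set.range π}) = τ := by
      intro τ
      have h1 : ¬ ∃ j, π j = ((g.symm r : {i : X // i ∉ Set.range π}) : X) := (g.symm r).2
      have h2 : ((g.symm r : {i : X // i ∉ Set.range π}) : X) ≠
          ((g.symm A.1 : {i : X // i ∉ Set.range π}) : X) := by
        intro h; exact hr (g.symm.injective (Subtype.ext h))
      simp only [f]
      rw [dif_neg h1, if_neg h2]
    refine ⟨_, hfK 0 le_rfl zero_le_one, _, hfK 1 zero_le_one le_rfl, fun h => ?_⟩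
    have h2 : f 0 (g.symm r : {i : X // i ∉ Set.range π}) =
        f 1 (g.symm r : {i : X // i ∉ Set.range π}) := by
      have := congrArg (fun v : EuclideanSpace ℝ X =>
        v ((g.symm r : {i : X // i ∉ Set.range π}) : X)) h
      exact this
    rw [hr2, hr2] at h2
    exact zero_ne_one h2
  have hKsub : ∀ A x, x ∈ K A → x ∈ ⋃₀ bdComplex (cube X) := fun A x hx => hcube _ _ x hx.2
  -- two points of `S A`
  have hSpts : ∀ A, ∃ p ∈ S A, ∃ q ∈ S A, p ≠ q := by
    intro A
    obtain ⟨p, hp, q, hq, hpq⟩ := hKpts A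
    refine ⟨φ.symm ⟨p, hKsub A p hp⟩, by simpa [S] using hp, φ.symm ⟨q, hKsub A q hq⟩,
      by simpa [S] using hq, fun h => hpq ?_⟩
    have := φ.symm.injective h
    simpa using this
  have hKconv : ∀ A, Convex ℝ (K A) := by
    intro A x hx y hy a b' ha hb' hab
    have hCF : ∀ (i : X) (β : Bool), x ∈ CF i β → y ∈ CF i β → a • x + b' • y ∈ CF i β := by
      intro i β hx hy
      refine ⟨fun l => ?_, ?_⟩
      · have h1 := hx.1 l
        have h2 := hy.1 l
        simp only [PiLp.add_apply, PiLp.smul_apply, smul_eq_mul]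
        constructor
        · have := mul_nonneg ha h1.1
          have := mul_nonneg hb' h2.1
          linarith
        · have := mul_le_mul_of_nonneg_left h1.2 ha
          have := mul_le_mul_of_nonneg_left h2.2 hb'
          linarith
      · simp only [PiLp.add_apply, PiLp.smul_apply, smul_eq_mul]
        rw [hx.2, hy.2, ← add_mul, hab, one_mul]
    exact ⟨fun j => hCF _ _ (hx.1 j) (hy.1 j), hCF _ _ hx.2 hy.2⟩
  have hSconn : ∀ A, IsPreconnected (S A) := by
    intro A
    have h1 : IsPreconnected (Subtype.val ⁻¹' (K A) : Set ↥(⋃₀ bdComplex (cube X))) := by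
      rw [← Topology.IsInducing.subtypeVal.isPreconnected_image, Subtype.image_preimage_coe,
        Set.inter_eq_right.2 (fun x hx => hKsub A x hx)]
      exact (hKconv A).isPreconnected
    have h2 : S A = φ ⁻¹' (Subtype.val ⁻¹' (K A)) := rfl
    rw [h2, φ.isPreconnected_preimage]
    exact h1
  refine ⟨fun A => ?_, fun k y hy => ?_⟩
  · obtain ⟨p, hp, -⟩ := hSpts A
    obtain ⟨h1, k, hk, h2⟩ := (hS A p).1 hp
    obtain ⟨y, hy, -⟩ := (slice_iff e N c w s k _).1 ⟨h1, h2⟩
    exact ⟨k, hk, y, hy⟩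
  · by_contra hcon
    push Not at hcon
    have hx := (slice_iff e N c w s k _).2 ⟨y, hy, rfl⟩
    set x : EuclideanSpace ℝ X := pt e (fun j => bit (s j)) y with hxdef
    set x' : ↥(⋃₀ bdComplex (HP L b)) := ⟨x, hbd _ _ hx.2⟩ with hx'def
    have hx'S : x' ∈ S (col k) := (hS _ _).2 ⟨hx.1, k, rfl, hx.2⟩
    let V : Set ↥(⋃₀ bdComplex (HP L b)) := ⋃ k' ∈ {k' : κ | col k' = col k ∧
      y ∉ Face N (fun k => c k + ∑ j, w k j * bit (s j)) k'},
      Subtype.val ⁻¹' (HG L b (.inr k'))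
    have hV : IsClosed V := by
      apply Set.Finite.isClosed_biUnion (Set.toFinite _)
      intro k' _
      exact (PB_hg_closed L b _).preimage continuous_subtype_val
    have hcov : S (col k) ⊆ {x'} ∪ V := by
      intro z hz
      obtain ⟨h1, k', hk', h2⟩ := (hS _ _).1 hz
      by_cases hyk : y ∈ Face N (fun k => c k + ∑ j, w k j * bit (s j)) k'
      · left
        obtain ⟨y', hy', hzy⟩ := (slice_iff e N c w s k' _).1 ⟨h1, h2⟩
        have h3 := hcon k' hk' hyk
        have h4 := h3 hy' hyk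
        rw [h4] at hzy
        exact Subtype.ext hzy
      · right
        simp only [V, Set.mem_iUnion]
        exact ⟨k', ⟨hk', hyk⟩, h2⟩
    have hx'V : x' ∉ V := by
      intro h
      simp only [V, Set.mem_iUnion] at h
      obtain ⟨k', ⟨-, hyk⟩, h2⟩ := h
      obtain ⟨y', hy', hzy⟩ := (slice_iff e N c w s k' _).1 ⟨hx.1, h2⟩
      have := (pt_inj e _ _ _ _ hzy).2
      rw [this] at hyk
      exact hyk hy'
    obtain ⟨p, hp, q, hq, hpq⟩ := hSpts (col k)
    have hz : ∃ z ∈ S (col k), z ≠ x' := by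
      by_cases h : p = x'
      · exact ⟨q, hq, fun h' => hpq (h.trans h'.symm)⟩
      · exact ⟨p, hp, h⟩
    obtain ⟨z, hzS, hzx⟩ := hz
    have hzV : z ∈ V := by
      rcases hcov hzS with h | h
      · exact absurd h hzx
      · exact h
    obtain ⟨z', -, hz1, hz2⟩ := isPreconnected_closed_iff.1 (hSconn (col k)) {x'} V
      isClosed_singleton hV hcov ⟨x', hx'S, rfl⟩ ⟨z, hzS, hzV⟩
    rw [Set.mem_singleton_iff] at hz1
    rw [hz1] at hz2
    exact hx'V hz2

end PartA

end Pool.Agent.helper78.CX
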