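import Mathlib
import Pool.Agent.helper78.CX.PB
import Pool.Agent.helper63.CX.CS
import Pool.Agent.helper26.CX.PE
import Pool.Agent.helper26.CX.PH2
import Pool.Agent.helper23.CX.LC
import Pool.Agent.helper23.CX.PR
import Pool.Agent.helper23.CX.GD
import Pool.Agent.helper35.CX.SA
import Pool.Agent.helper35.CX.SC
import Pool.Agent.helper92.CX.SB
import Pool.Agent.helper92.CX.HD

open Set

namespace Pool.Agent.helper78.CX

theorem FIN_XX (j : Fin 3) (x : ℤ × ℤ) (hx : x ∈ XX j.castSucc) :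
    (∃ i, x = tq j i) ∨ ∃ i, x = cw i := by
  fin_cases j
  · simp only [XX, Fin.castSucc, Fin.castAdd, Fin.castLE] at hx
    simp [tq, cw, Fin.exists_fin_succ] at hx ⊢
    tauto
  · simp [XX, tq, cw, Fin.exists_fin_succ] at hx ⊢
    tauto
  · simp [XX, tq, cw, Fin.exists_fin_succ] at hx ⊢
    tauto

theorem FIN_bp (b : ℤ × ℤ) : ∃ r t, b = bp r t := by
  refine ⟨(⟨(b.1 % 30).toNat, by omega⟩, ⟨(b.2 % 30).toNat, by omega⟩), (b.1 / 30, b.2 / 30), ?_⟩
  ext <;> simp [bp] <;> omega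

theorem not_refines {X : Type*} [Fintype X] (n e : ℕ) (θ ε : ℝ) (hε : ε ≤ 1 / 4)
    (h : Small n θ ε) (E : JJ e ⊕ Fin 3 ≃ X) :
    ¬ IsRefinement (bdComplex (Poly E (NN n) (cc n) (ww n e θ))) (bdComplex (cube X)) := by
  classical
  intro hR
  obtain ⟨hn, hθ0, hθ1, hsm, hz⟩ := h
  have : Nonempty (JJ e) := ⟨.inl (.inl 0, true)⟩
  obtain ⟨col, hcol⟩ := partA E (NN n) (cc n) (ww n e θ)
    (good_concrete n e θ ε hε ⟨hn, hθ0, hθ1, hsm, hz⟩) hR
  have hbase : ColProp (NN n) (cc n) col := by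
    have h1 := hcol (fun _ => false)
    have h2 : (fun k => cc n k + ∑ j, ww n e θ k j * bit ((fun _ => false : JJ e → Bool) j)) = cc n :=
      funext (slice_zero n e θ)
    rwa [h2] at h1
  have hcls : ∀ l, ColProp (NN n) (fun k => cc n k + bet n θ l k) col := by
    intro l
    obtain ⟨s, hs⟩ := slice_class n e θ l
    have h1 := hcol s
    rwa [funext hs] at h1
  obtain ⟨hinj, hb⟩ := slice_base n col hbase
  choose ix hix using hb
  have hixeq : ∀ a a', col (.inr a) = col (.inr a') → ix a = ix a' := by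
    intro a a' haa
    rw [hix a, hix a'] at haa
    have := hinj _ _ haa
    simpa using this
  have hixi : ∀ a i, col (.inr a) = col (.inl (i, false)) → ix a = i := by
    intro a i hai
    rw [hix a] at hai
    have := hinj _ _ hai
    simpa using this
  have hstrip : ∀ q a, InStrip n q a.1 → ix a ≠ stax q := by
    intro q a ha
    rcases slice_strip n hn θ hθ0 hθ1 q col (hcls _) a ha with h1 | ⟨i, hi, h1⟩
    · rw [slice_corner n hn θ q col hinj (hcls _)] at h1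
      rw [hixi a _ h1]
      fin_cases q <;> simp [spax, stax]
    · rw [hixi a i h1]; exact hi
  let c : ℤ × ℤ → Fin 3 := fun a => if ha : a ∈ Box n then ix ⟨a, ha⟩ else 0
  have hc : ∀ a (ha : a ∈ Box n), c a = ix ⟨a, ha⟩ := fun a ha => dif_pos ha
  have hbox : ∀ a : ℤ × ℤ, a ∈ Box n ↔ -(n : ℤ) ≤ a.1 ∧ a.1 ≤ n ∧ -(n : ℤ) ≤ a.2 ∧ a.2 ≤ n := by
    intro a; simp [Box, Finset.mem_product, Finset.mem_Icc, and_assoc]
  refine no_colouring n (by exact_mod_cast hn) c ?_ ?_ ?_ ?_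
  · intro a h1 h2 h3 h4 h5
    have ha : a ∈ Box n := (hbox a).2 ⟨h1, h2, h3, h4⟩
    rw [hc a ha]
    exact hstrip 0 ⟨a, ha⟩ h5
  · intro a h1 h2 h3 h4 h5
    have ha : a ∈ Box n := (hbox a).2 ⟨h1, h2, h3, h4⟩
    rw [hc a ha]
    exact hstrip 1 ⟨a, ha⟩ h5
  · intro a h1 h2 h3 h4 h5
    have ha : a ∈ Box n := (hbox a).2 ⟨by linarith, h2, by linarith, h4⟩
    rw [hc a ha]
    rcases h5 with h5 | h5
    · exact hstrip 2 ⟨a, ha⟩ ⟨h5, h3⟩
    · exact hstrip 3 ⟨a, ha⟩ ⟨h5, h1⟩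
  · intro j b hq hw w
    obtain ⟨r, t, rfl⟩ := FIN_bp b
    have hq' : ∀ i, bp r t + tq j i ∈ Box n := fun i => (hbox _).2 (hq i)
    have hw' : ∀ i, bp r t + cw i ∈ Box n := fun i => (hbox _).2 (hw i)
    have hf : Fits n j.castSucc r t := by
      intro x hx
      rcases FIN_XX j x hx with ⟨i, rfl⟩ | ⟨i, rfl⟩
      · exact hq' i
      · exact hw' i
    obtain ⟨i, hi⟩ := slice_gadget n θ hθ0 j r (fun t ht i => hz _ r t ht i) col (hcls _) t hf w
      (hw' w) hq'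
    refine ⟨i, ?_⟩
    rw [hc _ (hw' w), hc _ (hq' i)]
    exact hixeq _ _ hi

theorem FIN_card (e : ℕ) : Fintype.card (JJ e ⊕ Fin 3) = 7219 + e := by
  simp only [Fintype.card_sum, Fintype.card_prod, Fintype.card_fin, Fintype.card_bool]
  omega

theorem main (d : ℕ) (hd : 7219 ≤ d) : IsSimplePolytope d (cube (Fin d)) ∧
    ∀ ε > 0, ∃ P' : Set (EuclideanSpace ℝ (Fin d)), IsPolytope P' ∧ (interior P').Nonempty ∧
      Metric.hausdorffDist (cube (Fin d)) P' < ε ∧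
      ¬ IsRefinement (bdComplex P') (bdComplex (cube (Fin d))) := by
  refine ⟨cube_simple d, fun ε hε => ?_⟩
  obtain ⟨e, rfl⟩ : ∃ e, d = 7219 + e := ⟨d - 7219, by omega⟩
  have hE : Nonempty (JJ e ⊕ Fin 3 ≃ Fin (7219 + e)) := by
    rw [← Fintype.card_eq, FIN_card, Fintype.card_fin]
  obtain ⟨E⟩ := hE
  have hε' : 0 < min (ε / 4) (1 / 4) := lt_min (by linarith) (by norm_num)
  obtain ⟨n, θ, hs⟩ := exists_small (min (ε / 4) (1 / 4)) hε'
  have h4 : min (ε / 4) (1 / 4) ≤ 1 / 4 := min_le_right _ _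
  refine ⟨Poly E (NN n) (cc n) (ww n e θ), ?_, ?_, ?_, ?_⟩
  · exact poly_polytope E _ _ _ (poly_bounded n e θ _ h4 hs E)
  · exact poly_interior n e θ _ h4 hs E
  · have := poly_hausdorff n e θ _ h4 hε' hs E
    have h5 : min (ε / 4) (1 / 4) ≤ ε / 4 := min_le_left _ _
    linarith
  · exact not_refines n e θ _ h4 hs E

end Pool.Agent.helper78.CX
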